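import Pool.Agent.W652.OriMain

/-!
# A rigid-foldable two-vertex crease pattern with disconnected configuration space

The sheet is a rectangle; the two interior vertices have degree four.  All definitions
(`CreasePattern`, `IsFace`, `HasFoldAngle`, `IsRigidOrigami`, `configSpace`, `RigidFoldable`,
`TwoVertex`) are in `Pool.Agent.W652.OriDefs`.
-/

set_option autoImplicit false

namespace Pool.Agent.Results.MP_aa2243_gt.DisconnectedTwoVertex

open Pool.Agent.W652.Origami

/-- There is a two-vertex crease pattern on a rectangle, both interior vertices of which have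
degree four, which is rigid-foldable and whose configuration space is not connected. -/
theorem result : ∃ G : CreasePattern,
    (∃ a b : ℝ, 0 < a ∧ 0 < b ∧ G.R = {p : Plane | |p 0| ≤ a ∧ |p 1| ≤ b}) ∧
    G.TwoVertex ∧
    (∀ i, G.vert i ∈ interior G.R → {e | G.src e = i ∨ G.tgt e = i}.ncard = 4) ∧
    G.RigidFoldable ∧
    ¬ IsPreconnected G.configSpace := by
  refine ⟨G0, ⟨50, 12, by norm_num, by norm_num, ?_⟩, twoVertex_G0, ?_, rigidFoldable_G0,
    not_isPreconnected⟩
  · ext p
    rw [Set.mem_ofPred_eq, abs_le, abs_le]
    rfl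
  · intro i hi
    rcases (vt_mem_interior_iff i).1 hi with rfl | rfl
    · have h : {e : Fin 7 | sr e = 0 ∨ tg e = 0} = ((({0, 1, 2, 3} : Finset (Fin 7))) : Set (Fin 7)) := by
        ext e
        rw [Set.mem_ofPred_eq, Finset.mem_coe]
        revert e
        decide
      have h2 : {e : Fin 7 | sr e = 0 ∨ tg e = 0}.ncard = 4 := by
        rw [h, Set.ncard_coe_finset]
        rfl
      exact h2
    · have h : {e : Fin 7 | sr e = 1 ∨ tg e = 1} = ((({0, 4, 5, 6} : Finset (Fin 7))) : Set (Fin 7)) := by
        ext e
        rw [Set.mem_ofPred_eq, Finset.mem_coe]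
        revert e
        decide
      have h2 : {e : Fin 7 | sr e = 1 ∨ tg e = 1}.ncard = 4 := by
        rw [h, Set.ncard_coe_finset]
        rfl
      exact h2

end Pool.Agent.Results.MP_aa2243_gt.DisconnectedTwoVertex
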